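import Pool.Agent.W907.SM.Stmts

set_option autoImplicit false

/-!
# The quadratic form argument: no top cycles in odd length
-/

namespace Pool.Agent.W333.SM

open Pool.Agent.W907.SM

variable {n : ℕ} {V K : Type} [Fintype V] [DecidableEq V] [Field K]

/-! ### basic operations -/

/-- weighted boundary sum -/
def bs (ω : V → K) (x : Finset V → K) (T : Finset V) : K := ∑ v ∈ Tᶜ, ω v * x (insert v T)

theorem bs_add (ω : V → K) (x y : Finset V → K) (T : Finset V) :
    bs ω (x + y) T = bs ω x T + bs ω y T := by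
  unfold bs
  rw [← Finset.sum_add_distrib]
  exact Finset.sum_congr rfl fun v _ => by rw [Pi.add_apply]; ring

theorem bs_smul (ω : V → K) (a : K) (x : Finset V → K) (T : Finset V) :
    bs ω (a • x) T = a * bs ω x T := by
  unfold bs
  rw [Finset.mul_sum]
  exact Finset.sum_congr rfl fun v _ => by rw [Pi.smul_apply, smul_eq_mul]; ring

theorem bs_zero (ω : V → K) (T : Finset V) : bs ω (0 : Finset V → K) T = 0 := by
  unfold bs; simp

/-- functions on the chains of type `C` in `N`, with boundary conditions -/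
def BZ (r : V → V → Prop) (rk : V → Fin n) (N : Set V) (C : Finset (Fin n))
    (Ω : Fin n → (V → K) → Prop) : Submodule K (Finset V → K) where
  carrier := {x | (∀ T, ¬ ty r rk N C T → x T = 0) ∧
    ∀ c ∈ C, ∀ ω, Ω c ω → ∀ T, ty r rk N (C.erase c) T → bs ω x T = 0}
  add_mem' := by
    rintro x y ⟨hx, hx'⟩ ⟨hy, hy'⟩
    refine ⟨fun T hT => ?_, fun c hc ω hω T hT => ?_⟩
    · rw [Pi.add_apply, hx T hT, hy T hT, add_zero]
    · rw [bs_add, hx' c hc ω hω T hT, hy' c hc ω hω T hT, add_zero]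
  zero_mem' := ⟨fun T _ => rfl, fun c _ ω _ T _ => bs_zero ω T⟩
  smul_mem' := by
    rintro a x ⟨hx, hx'⟩
    refine ⟨fun T hT => ?_, fun c hc ω hω T hT => ?_⟩
    · rw [Pi.smul_apply, hx T hT, smul_zero]
    · rw [bs_smul, hx' c hc ω hω T hT, mul_zero]

theorem BZ_mono {r : V → V → Prop} {rk : V → Fin n} {N : Set V} {C : Finset (Fin n)}
    {Ω Ω' : Fin n → (V → K) → Prop} {x : Finset V → K} (hx : x ∈ BZ r rk N C Ω)
    (h : ∀ c ∈ C, ∀ ω, Ω' c ω → Ω c ω) : x ∈ BZ r rk N C Ω' :=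
  ⟨hx.1, fun c hc ω hω => hx.2 c hc ω (h c hc ω hω)⟩

open scoped Classical in
/-- restriction to the chains with top `R` -/
noncomputable def res (r : V → V → Prop) (R : V) : (Finset V → K) →ₗ[K] (Finset V → K) where
  toFun x T := if ∀ v ∈ T, r v R then x (insert R T) else 0
  map_add' x y := by
    funext T
    simp only [Pi.add_apply]
    split_ifs
    · rfl
    · rw [add_zero]
  map_smul' a x := by
    funext T
    simp only [Pi.smul_apply, smul_eq_mul, RingHom.id_apply]
    split_ifs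
    · rfl
    · rw [mul_zero]

theorem res_pos {r : V → V → Prop} {R : V} {T : Finset V} (h : ∀ v ∈ T, r v R)
    (x : Finset V → K) : res r R x T = x (insert R T) := by
  exact if_pos h

theorem res_neg {r : V → V → Prop} {R : V} {T : Finset V} (h : ¬ ∀ v ∈ T, r v R)
    (x : Finset V → K) : res r R x T = 0 := by
  exact if_neg h

open scoped Classical in
/-- the boundary on the chains of type `C'` -/
noncomputable def dl (r : V → V → Prop) (rk : V → Fin n) (N : Set V) (C' : Finset (Fin n)) :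
    (Finset V → K) →ₗ[K] (Finset V → K) where
  toFun x T := if ty r rk N C' T then bs 1 x T else 0
  map_add' x y := by
    funext T
    simp only [Pi.add_apply, bs_add]
    split_ifs
    · rfl
    · rw [add_zero]
  map_smul' a x := by
    funext T
    simp only [Pi.smul_apply, smul_eq_mul, RingHom.id_apply, bs_smul]
    split_ifs
    · rfl
    · rw [mul_zero]

theorem dl_pos {r : V → V → Prop} {rk : V → Fin n} {N : Set V} {C' : Finset (Fin n)} {T : Finset V}
    (h : ty r rk N C' T) (x : Finset V → K) : dl r rk N C' x T = bs 1 x T := by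
  exact if_pos h

theorem dl_neg {r : V → V → Prop} {rk : V → Fin n} {N : Set V} {C' : Finset (Fin n)} {T : Finset V}
    (h : ¬ ty r rk N C' T) (x : Finset V → K) : dl r rk N C' x T = 0 := by
  exact if_neg h

open scoped Classical in
/-- elements of `N` of rank `s` -/
noncomputable def el (rk : V → Fin n) (N : Set V) (s : ℕ) : Finset V :=
  Finset.univ.filter fun v => v ∈ N ∧ (rk v : ℕ) = s

theorem mem_el {rk : V → Fin n} {N : Set V} {s : ℕ} {v : V} :
    v ∈ el rk N s ↔ v ∈ N ∧ (rk v : ℕ) = s := by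
  unfold el; simp

open scoped Classical in
/-- elements of `N` above `R` -/
noncomputable def up (r : V → V → Prop) (N : Set V) (R : V) : Finset V :=
  Finset.univ.filter fun v => v ∈ N ∧ r R v

theorem mem_up {r : V → V → Prop} {N : Set V} {R v : V} : v ∈ up r N R ↔ v ∈ N ∧ r R v := by
  unfold up; simp

/-! ### chains -/

section chains

variable {r : V → V → Prop} {rk : V → Fin n}

theorem adj_iff {u v : V} : (cmp r).Adj u v ↔ u ≠ v ∧ (r u v ∨ r v u) :=
  SimpleGraph.fromRel_adj r u v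

theorem irr (hrk : ∀ x y, r x y → rk x < rk y) (x : V) : ¬ r x x := fun h => lt_irrefl _ (hrk _ _ h)

theorem notMem_of_below (hrk : ∀ x y, r x y → rk x < rk y) {R : V} {T : Finset V}
    (hT : ∀ v ∈ T, r v R) : R ∉ T := fun h => irr hrk R (hT R h)

theorem ty_insert (hrk : ∀ x y, r x y → rk x < rk y) {N : Set V} {C : Finset (Fin n)} {R : V}
    {T : Finset V} (hN : ∀ a b, r a b → b ∈ N → a ∈ N) (hR : R ∈ N) (hC : rk R ∈ C)
    (hT : ∀ v ∈ T, r v R) :
    ty r rk N C (insert R T) ↔ ty r rk {v | r v R} (C.erase (rk R)) T := by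
  have hnot : rk R ∉ T.image rk := by
    intro h
    obtain ⟨v, hv, e⟩ := Finset.mem_image.1 h
    have := hrk _ _ (hT v hv)
    rw [e] at this
    exact lt_irrefl _ this
  constructor
  · rintro ⟨h1, h2, h3⟩
    refine ⟨h1.subset (by simp), fun v hv => hT v hv, ?_⟩
    rw [← h3, Finset.image_insert, Finset.erase_insert hnot]
  · rintro ⟨h1, h2, h3⟩
    refine ⟨?_, ?_, ?_⟩
    · rw [Finset.coe_insert, SimpleGraph.isClique_insert]
      exact ⟨h1, fun v hv hne => adj_iff.2 ⟨hne, Or.inr (hT v hv)⟩⟩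
    · intro v hv
      rw [Finset.coe_insert] at hv
      rcases hv with rfl | hv
      · exact hR
      · exact hN _ _ (hT v hv) hR
    · rw [Finset.image_insert, h3, Finset.insert_erase hC]

theorem below_of_ty (hrk : ∀ x y, r x y → rk x < rk y) {N : Set V} {C : Finset (Fin n)} {R : V}
    {T : Finset V} (h : ty r rk N C (insert R T)) (hRT : R ∉ T) (top : ∀ c ∈ C, c ≤ rk R) :
    ∀ v ∈ T, r v R := by
  intro v hv
  obtain ⟨h1, h2, h3⟩ := h
  have hne : v ≠ R := fun e => hRT (e ▸ hv)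
  have hadj := h1 (by simp [hv] : v ∈ ((insert R T : Finset V) : Set V)) (by simp) hne
  rcases (adj_iff.1 hadj).2 with h | h
  · exact h
  · have h4 := hrk _ _ h
    have h5 : rk v ∈ C := by rw [← h3]; exact Finset.mem_image_of_mem _ (by simp [hv])
    exact absurd (top _ h5) (not_le.2 h4)

theorem rk_missing {N : Set V} {C : Finset (Fin n)} {c : Fin n} {v : V} {T : Finset V} (hc : c ∈ C)
    (h : ty r rk N (C.erase c) T) (h' : ty r rk N C (insert v T)) : rk v = c := by
  have h1 := h'.2.2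
  rw [Finset.image_insert, h.2.2] at h1
  rw [← h1] at hc
  rcases Finset.mem_insert.1 hc with h | h
  · exact h.symm
  · exact absurd h (Finset.notMem_erase _ _)

theorem bs_res (hrk : ∀ x y, r x y → rk x < rk y) {N : Set V} {C : Finset (Fin n)} {R : V}
    {T : Finset V} {x : Finset V → K} {ω : V → K} (hx : ∀ T, ¬ ty r rk N C T → x T = 0)
    (top : ∀ c ∈ C, c ≤ rk R) (hT : ∀ v ∈ T, r v R) :
    bs ω (res r R x) T = bs ω x (insert R T) := by
  have hRT : R ∉ T := notMem_of_below hrk hT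
  unfold bs
  have hc : Tᶜ = insert R (insert R T)ᶜ := by
    ext u
    simp only [Finset.mem_compl, Finset.mem_insert]
    by_cases hu : u = R
    · subst hu; simp [hRT]
    · simp [hu]
  rw [hc, Finset.sum_insert (by simp)]
  have h0 : res r R x (insert R T) = 0 := by
    apply res_neg
    intro h
    exact irr hrk R (h R (by simp))
  rw [h0, mul_zero, zero_add]
  refine Finset.sum_congr rfl fun v hv => ?_
  have hv' : v ≠ R ∧ v ∉ T := by simpa using hv
  by_cases hvR : r v R
  · rw [res_pos, Finset.insert_comm]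
    intro u hu
    rcases Finset.mem_insert.1 hu with rfl | hu
    · exact hvR
    · exact hT u hu
  · rw [res_neg (fun h => hvR (h v (by simp)))]
    rw [hx]
    intro h
    rw [Finset.insert_comm] at h
    have := below_of_ty hrk h (by simp [hRT, hv'.1.symm]) top v (by simp)
    exact hvR this

theorem res_mem (hrk : ∀ x y, r x y → rk x < rk y) {N : Set V} {C : Finset (Fin n)} {R : V}
    {Ω : Fin n → (V → K) → Prop} (hN : ∀ a b, r a b → b ∈ N → a ∈ N) {x : Finset V → K}
    (hx : x ∈ BZ r rk N C Ω) (hR : R ∈ N) (hC : rk R ∈ C) (top : ∀ c ∈ C, c ≤ rk R) :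
    res r R x ∈ BZ r rk {v | r v R} (C.erase (rk R)) Ω := by
  refine ⟨fun T hT => ?_, fun c hc ω hω T hT => ?_⟩
  · by_cases h : ∀ v ∈ T, r v R
    · rw [res_pos h]
      exact hx.1 _ fun h' => hT ((ty_insert hrk hN hR hC h).1 h')
    · exact res_neg h x
  · have h : ∀ v ∈ T, r v R := fun v hv => hT.2.1 hv
    rw [bs_res hrk hx.1 top h]
    refine hx.2 c (Finset.mem_of_mem_erase hc) ω hω _ ?_
    rw [ty_insert hrk hN hR (Finset.mem_erase.2 ⟨(Finset.ne_of_mem_erase hc).symm, hC⟩) h,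
      Finset.erase_right_comm]
    exact hT

theorem dl_res (hrk : ∀ x y, r x y → rk x < rk y) {N : Set V} {C : Finset (Fin n)} {R : V}
    (hN : ∀ a b, r a b → b ∈ N → a ∈ N) {x : Finset V → K}
    (hx : ∀ T, ¬ ty r rk N C T → x T = 0) (hR : R ∈ N) (hC : rk R ∈ C)
    (top : ∀ c ∈ C, c ≤ rk R) {s : Fin n} (hs : s ≠ rk R) :
    dl r rk {v | r v R} ((C.erase (rk R)).erase s) (res r R x) =
      res r R (dl r rk N (C.erase s) x) := by
  funext T
  by_cases h : ∀ v ∈ T, r v R
  · rw [res_pos h]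
    have hiff := ty_insert hrk (C := C.erase s) hN hR (Finset.mem_erase.2 ⟨hs.symm, hC⟩) h
    rw [Finset.erase_right_comm] at hiff
    by_cases h2 : ty r rk N (C.erase s) (insert R T)
    · rw [dl_pos h2, dl_pos (hiff.1 h2), bs_res hrk hx top h]
    · rw [dl_neg h2, dl_neg (fun h3 => h2 (hiff.2 h3))]
  · rw [res_neg h, dl_neg]
    intro h2
    exact h fun v hv => h2.2.1 hv

theorem res_dl (htr : ∀ x y z, r x y → r y z → r x z) (hrk : ∀ x y, r x y → rk x < rk y)
    {N : Set V} {C : Finset (Fin n)} {M : V} {s : Fin n}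
    (hN : ∀ a b, r a b → b ∈ N → a ∈ N) {b : Finset V → K}
    (hb : ∀ T, ¬ ty r rk N C T → b T = 0) (hsC : s ∈ C) (hM1 : ∀ R ∈ N, r M R → rk R = s)
    (hM2 : rk M < s) :
    res r M (dl r rk N (C.erase s) b) = ∑ R ∈ up r N M, res r M (res r R b) := by
  funext T
  rw [Finset.sum_apply]
  by_cases hT : ∀ v ∈ T, r v M
  · rw [res_pos hT]
    have hMT : M ∉ T := notMem_of_below hrk hT
    have e1 : ∑ R ∈ up r N M, res r M (res r R b) T =
        ∑ R ∈ up r N M, b (insert R (insert M T)) := by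
      refine Finset.sum_congr rfl fun R hR => ?_
      rw [mem_up] at hR
      rw [res_pos hT, res_pos]
      intro v hv
      rcases Finset.mem_insert.1 hv with rfl | hv
      · exact hR.2
      · exact htr _ _ _ (hT v hv) hR.2
    rw [e1]
    by_cases h2 : ty r rk N (C.erase s) (insert M T)
    · rw [dl_pos h2]
      unfold bs
      have e2 : ∀ v, (1 : V → K) v * b (insert v (insert M T)) = b (insert v (insert M T)) := by
        intro v; rw [Pi.one_apply, one_mul]
      simp only [e2]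
      symm
      refine Finset.sum_subset ?_ ?_
      · intro R hR
        rw [mem_up] at hR
        simp only [Finset.mem_compl, Finset.mem_insert, not_or]
        refine ⟨?_, ?_⟩
        · rintro rfl
          exact irr hrk _ hR.2
        · intro h
          exact irr hrk _ (htr _ _ _ hR.2 (hT R h))
      · intro v hv hv2
        apply hb
        intro h3
        have h4 := rk_missing hsC h2 h3
        have hvN : v ∈ N := h3.2.1 (by simp)
        have hne : v ≠ M := by
          rintro rfl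
          simp at hv
        have hadj := h3.1 (by simp : v ∈ ((insert v (insert M T) : Finset V) : Set V))
          (by simp : M ∈ ((insert v (insert M T) : Finset V) : Set V)) hne
        rcases (adj_iff.1 hadj).2 with h | h
        · have := hrk _ _ h
          rw [h4] at this
          exact absurd hM2 (not_lt.2 this.le)
        · exact hv2 (mem_up.2 ⟨hvN, h⟩)
    · rw [dl_neg h2]
      symm
      refine Finset.sum_eq_zero fun R hR => ?_
      rw [mem_up] at hR
      apply hb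
      intro h3
      apply h2
      have hRs := hM1 R hR.1 hR.2
      have hbelow : ∀ v ∈ insert M T, r v R := by
        intro v hv
        rcases Finset.mem_insert.1 hv with rfl | hv
        · exact hR.2
        · exact htr _ _ _ (hT v hv) hR.2
      have h5 := (ty_insert hrk hN hR.1 (by rw [hRs]; exact hsC) hbelow).1 h3
      rw [hRs] at h5
      exact ⟨h5.1, fun v hv => hN _ _ (h5.2.1 hv) hR.1, h5.2.2⟩
  · rw [res_neg hT]
    symm
    exact Finset.sum_eq_zero fun R _ => res_neg hT _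

end chains

/-! ### forms -/

/-- a symmetric bilinear form -/
structure Form (L : (Finset V → K) → (Finset V → K) → K) : Prop where
  add : ∀ a b c, L (a + b) c = L a c + L b c
  smul : ∀ (t : K) a c, L (t • a) c = t * L a c
  symm : ∀ a b, L a b = L b a

section forms

variable {L : (Finset V → K) → (Finset V → K) → K}

omit [Fintype V] [DecidableEq V] in
theorem Form.add_right (h : Form L) (a b c : Finset V → K) : L c (a + b) = L c a + L c b := by
  rw [h.symm, h.add, h.symm a, h.symm b]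

omit [Fintype V] [DecidableEq V] in
theorem Form.smul_right (h : Form L) (t : K) (a c : Finset V → K) : L c (t • a) = t * L c a := by
  rw [h.symm, h.smul, h.symm a]

omit [Fintype V] [DecidableEq V] in
theorem Form.zero_left (h : Form L) (c : Finset V → K) : L 0 c = 0 := by
  have := h.smul 0 0 c
  rwa [zero_smul, zero_mul] at this

omit [Fintype V] [DecidableEq V] in
theorem Form.zero_right (h : Form L) (c : Finset V → K) : L c 0 = 0 := by
  rw [h.symm, h.zero_left]

omit [Fintype V] [DecidableEq V] in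
theorem Form.sum_right (h : Form L) (s : Finset V) (f : V → Finset V → K) (c : Finset V → K) :
    L c (∑ i ∈ s, f i) = ∑ i ∈ s, L c (f i) := by
  classical
  induction s using Finset.induction_on with
  | empty => rw [Finset.sum_empty, Finset.sum_empty, h.zero_right]
  | insert a s ha ih => rw [Finset.sum_insert ha, Finset.sum_insert ha, h.add_right, ih]

omit [Fintype V] [DecidableEq V] in
theorem Form.sub_left (h : Form L) (a b c : Finset V → K) : L (a - b) c = L a c - L b c := by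
  have := h.add (a - b) b c
  rw [sub_add_cancel] at this
  rw [this]; ring

omit [Fintype V] [DecidableEq V] in
theorem Form.comp (h : Form L) (f : (Finset V → K) →ₗ[K] (Finset V → K)) :
    Form (fun a b => L (f a) (f b)) :=
  ⟨fun a b c => by simp only [map_add, h.add], fun t a c => by simp only [map_smul, h.smul],
    fun a b => h.symm _ _⟩

end forms

/-- the pairing of two families -/
noncomputable def pr (r : V → V → Prop) (rk : V → Fin n) (k : ℕ)
    (Λ : V → (Finset V → K) → (Finset V → K) → K) (N : Set V) (ω : V → K)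
    (b c : Finset V → K) : K :=
  ∑ M ∈ el rk N (2 * k + 1), ∑ R ∈ el rk {v | r v M} (2 * k),
    ω R * Λ R (res r R (res r M b)) (res r R (res r M c))

theorem pr_form (r : V → V → Prop) (rk : V → Fin n) (k : ℕ)
    {Λ : V → (Finset V → K) → (Finset V → K) → K} (h : ∀ R, Form (Λ R)) (N : Set V) (ω : V → K) :
    Form (pr r rk k Λ N ω) := by
  refine ⟨fun a b c => ?_, fun t a c => ?_, fun a b => ?_⟩
  · unfold pr
    simp only [map_add, (h _).add, mul_add, Finset.sum_add_distrib]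
  · unfold pr
    simp only [map_smul, (h _).smul, Finset.mul_sum]
    exact Finset.sum_congr rfl fun M _ => Finset.sum_congr rfl fun R _ => by ring
  · unfold pr
    exact Finset.sum_congr rfl fun M _ => Finset.sum_congr rfl fun R _ => by rw [(h R).symm]

/-! ### the diagonal form -/

/-- the diagonal form -/
def q (τ : V → K) (x : Finset V → K) : K := ∑ T : Finset V, (∏ v ∈ T, τ v) * x T ^ 2

theorem q_add [CharP K 2] (τ : V → K) (x y : Finset V → K) : q τ (x + y) = q τ x + q τ y := by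
  unfold q
  rw [← Finset.sum_add_distrib]
  refine Finset.sum_congr rfl fun T _ => ?_
  rw [Pi.add_apply, CharTwo.add_sq, mul_add]

theorem q_zero (τ : V → K) : q τ (0 : Finset V → K) = 0 := by
  unfold q; simp

theorem q_sum [CharP K 2] (τ : V → K) (s : Finset V) (f : V → Finset V → K) :
    q τ (∑ i ∈ s, f i) = ∑ i ∈ s, q τ (f i) := by
  induction s using Finset.induction_on with
  | empty => rw [Finset.sum_empty, Finset.sum_empty, q_zero]
  | insert a s ha ih => rw [Finset.sum_insert ha, Finset.sum_insert ha, q_add, ih]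

theorem sum_reindex (f : Finset V → K) (R : V) :
    ∑ T : Finset V, (if R ∈ T then f T else 0) =
      ∑ T : Finset V, (if R ∉ T then f (insert R T) else 0) := by
  rw [← Finset.sum_filter, ← Finset.sum_filter]
  refine Finset.sum_nbij' (fun T => T.erase R) (fun T => insert R T) ?_ ?_ ?_ ?_ ?_
  · intro T hT; simp
  · intro T hT; simp
  · intro T hT
    simp only [Finset.mem_filter, Finset.mem_univ, true_and] at hT
    exact Finset.insert_erase hT
  · intro T hT
    simp only [Finset.mem_filter, Finset.mem_univ, true_and] at hT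
    exact Finset.erase_insert hT
  · intro T hT
    simp only [Finset.mem_filter, Finset.mem_univ, true_and] at hT
    rw [Finset.insert_erase hT]

theorem q_res {r : V → V → Prop} {rk : V → Fin n} (hrk : ∀ x y, r x y → rk x < rk y) (τ : V → K)
    {N : Set V} {C : Finset (Fin n)} {s : Fin n} {x : Finset V → K}
    (hx : ∀ T, ¬ ty r rk N C T → x T = 0) (hs : s ∈ C) (top : ∀ c ∈ C, c ≤ s) :
    q τ x = ∑ R ∈ el rk N (s : ℕ), τ R * q τ (res r R x) := by
  have h1 : ∀ T : Finset V, (∏ v ∈ T, τ v) * x T ^ 2 =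
      ∑ R ∈ el rk N (s : ℕ), if R ∈ T then (∏ v ∈ T, τ v) * x T ^ 2 else 0 := by
    intro T
    by_cases hT : ty r rk N C T
    · rw [← hT.2.2] at hs
      obtain ⟨R, hR, hRs⟩ := Finset.mem_image.1 hs
      rw [Finset.sum_eq_single R, if_pos hR]
      · intro R' hR' hne
        rw [if_neg]
        intro hR2
        have hadj := hT.1 (by exact_mod_cast hR2) (by exact_mod_cast hR) hne
        have e1 : (rk R' : ℕ) = s := (mem_el.1 hR').2
        have e2 : rk R' = rk R := by
          apply Fin.ext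
          rw [e1, hRs]
        rcases (adj_iff.1 hadj).2 with h | h
        · exact absurd (hrk _ _ h) (by rw [e2]; exact lt_irrefl _)
        · exact absurd (hrk _ _ h) (by rw [e2]; exact lt_irrefl _)
      · intro h
        exact absurd (mem_el.2 ⟨hT.2.1 hR, by rw [hRs]⟩) h
    · rw [hx T hT]
      simp
  have h2 : q τ x = ∑ R ∈ el rk N (s : ℕ), ∑ T : Finset V,
      if R ∈ T then (∏ v ∈ T, τ v) * x T ^ 2 else 0 := by
    unfold q
    rw [Finset.sum_congr rfl (fun T _ => h1 T), Finset.sum_comm]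
  rw [h2]
  refine Finset.sum_congr rfl fun R hR => ?_
  rw [sum_reindex (fun T => (∏ v ∈ T, τ v) * x T ^ 2) R]
  unfold q
  rw [Finset.mul_sum]
  refine Finset.sum_congr rfl fun T _ => ?_
  by_cases hRT : R ∈ T
  · rw [if_neg (by simpa using hRT), res_neg (fun h => irr hrk R (h R hRT))]
    ring
  · rw [if_pos hRT, Finset.prod_insert hRT]
    by_cases h : ∀ v ∈ T, r v R
    · rw [res_pos h]; ring
    · rw [res_neg h, hx (insert R T)]
      · ring
      · intro h'
        apply h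
        refine below_of_ty hrk h' hRT ?_
        intro c hc
        have := top c hc
        have e : rk R = s := Fin.ext (mem_el.1 hR).2
        rwa [e]

/-! ### the twist -/

/-- multiplication by the slopes of the elements of rank `s` -/
def tw (rk : V → Fin n) (τ : V → K) (s : ℕ) (x : Finset V → K) (T : Finset V) : K :=
  (∏ v ∈ T.filter (fun v => (rk v : ℕ) = s), τ v) * x T

theorem res_tw {r : V → V → Prop} {rk : V → Fin n} (hrk : ∀ x y, r x y → rk x < rk y) (τ : V → K)
    {R : V} {s : ℕ} (hR : (rk R : ℕ) = s) (x : Finset V → K) :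
    res r R (tw rk τ s x) = τ R • res r R x := by
  funext T
  rw [Pi.smul_apply, smul_eq_mul]
  by_cases h : ∀ v ∈ T, r v R
  · rw [res_pos h, res_pos h]
    unfold tw
    have e1 : T.filter (fun v => (rk v : ℕ) = s) = ∅ := by
      apply Finset.filter_eq_empty_iff.2
      intro v hv h2
      have := hrk _ _ (h v hv)
      rw [Fin.lt_def] at this
      omega
    rw [Finset.filter_insert, if_pos hR, e1]
    simp
  · rw [res_neg h, res_neg h, mul_zero]

/-- the conditions: all boundaries, and the double ones -/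
def Of (τ : V → K) (D : Finset (Fin n)) (c : Fin n) (ω : V → K) : Prop := ω = 1 ∨ (ω = τ ∧ c ∈ D)

/-- the conditions, except for the rank `s` -/
def Oe (τ : V → K) (D : Finset (Fin n)) (s : Fin n) (c : Fin n) (ω : V → K) : Prop :=
  c ≠ s ∧ (ω = 1 ∨ (ω = τ ∧ c ∈ D))

theorem mem_DblF {k : ℕ} {c : Fin n} : c ∈ DblF n k ↔ (Even c.val ∧ c.val < 2 * k) := by
  unfold DblF; simp

theorem mem_RgF {a b : ℕ} {c : Fin n} : c ∈ RgF n a b ↔ (a ≤ c.val ∧ c.val < b) := by
  unfold RgF; simp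

theorem tw_mem {r : V → V → Prop} {rk : V → Fin n} (τ : V → K)
    {N : Set V} {k : ℕ} {x : Finset V → K}
    (hx : x ∈ BZ r rk N (DblF n (k + 1)) (Of τ (DblF n (k + 1)))) :
    tw rk τ (2 * k) x ∈ BZ r rk N (DblF n (k + 1)) (Of τ (DblF n k)) := by
  refine ⟨fun T hT => ?_, fun c hc ω hω T hT => ?_⟩
  · unfold tw
    rw [hx.1 T hT, mul_zero]
  · by_cases hck : c.val = 2 * k
    · have hω1 : ω = 1 := by
        rcases hω with h | h
        · exact h
        · have := (mem_DblF.1 h.2).2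
          omega
      have e : bs ω (tw rk τ (2 * k) x) T =
          (∏ v ∈ T.filter (fun v => (rk v : ℕ) = 2 * k), τ v) * bs τ x T := by
        unfold bs
        rw [Finset.mul_sum]
        refine Finset.sum_congr rfl fun v hv => ?_
        rw [hω1, Pi.one_apply, one_mul]
        by_cases hv2 : ty r rk N (DblF n (k + 1)) (insert v T)
        · have hrv := rk_missing hc hT hv2
          unfold tw
          rw [Finset.filter_insert, if_pos (by rw [hrv, hck]), Finset.prod_insert]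
          · ring
          · intro h
            rw [Finset.mem_compl] at hv
            exact hv (Finset.mem_filter.1 h).1
        · unfold tw
          rw [hx.1 _ hv2]; ring
      rw [e, hx.2 c hc τ (Or.inr ⟨rfl, hc⟩) T hT, mul_zero]
    · have e : bs ω (tw rk τ (2 * k) x) T =
          (∏ v ∈ T.filter (fun v => (rk v : ℕ) = 2 * k), τ v) * bs ω x T := by
        unfold bs
        rw [Finset.mul_sum]
        refine Finset.sum_congr rfl fun v hv => ?_
        by_cases hv2 : ty r rk N (DblF n (k + 1)) (insert v T)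
        · have hrv := rk_missing hc hT hv2
          unfold tw
          rw [Finset.filter_insert, if_neg (by rw [hrv]; exact hck)]
          ring
        · unfold tw
          rw [hx.1 _ hv2]; ring
      rw [e, hx.2 c hc ω ?_ T hT, mul_zero]
      rcases hω with h | h
      · exact Or.inl h
      · exact Or.inr ⟨h.1, hc⟩

/-! ### intervals -/

section intervals

variable {r : V → V → Prop} {rk : V → Fin n}

omit [Fintype V] [DecidableEq V] in
theorem isN_down (htr : ∀ x y z, r x y → r y z → r x z) {m : ℕ} {N : Set V}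
    (h : IsN r rk m N) : ∀ a b, r a b → b ∈ N → a ∈ N := by
  intro a b hab hb
  rcases h with ⟨rfl, _⟩ | ⟨y, rfl, _⟩
  · trivial
  · exact htr _ _ _ hab hb

omit [Fintype V] [DecidableEq V] in
theorem isN_lt (hrk : ∀ x y, r x y → rk x < rk y) {m : ℕ} {N : Set V}
    (h : IsN r rk m N) : ∀ v ∈ N, (rk v : ℕ) < m := by
  intro v hv
  rcases h with ⟨rfl, rfl⟩ | ⟨y, rfl, rfl⟩
  · exact (rk v).2
  · exact hrk _ _ hv

omit [Fintype V] [DecidableEq V] in
theorem isN_le {m : ℕ} {N : Set V} (h : IsN r rk m N) : m ≤ n := by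
  rcases h with ⟨rfl, rfl⟩ | ⟨y, rfl, rfl⟩
  · exact le_rfl
  · exact (rk y).2.le

theorem swap (htr : ∀ x y z, r x y → r y z → r x z) (hrk : ∀ x y, r x y → rk x < rk y) {m : ℕ}
    {N : Set V} (hN : IsN r rk (m + 2) N) (F : V → V → K) :
    ∑ M ∈ el rk N (m + 1), ∑ R ∈ el rk {v | r v M} m, F M R =
      ∑ R ∈ el rk N m, ∑ M ∈ up r N R, F M R := by
  apply Finset.sum_comm'
  intro M R
  simp only [mem_el, mem_up, Set.mem_ofPred_eq]
  constructor
  · rintro ⟨⟨h1, h2⟩, h3, h4⟩
    exact ⟨⟨h1, h3⟩, isN_down htr hN _ _ h3 h1, h4⟩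
  · rintro ⟨⟨h1, h3⟩, h2, h4⟩
    have h5 := isN_lt hrk hN M h1
    have h6 := hrk _ _ h3
    rw [Fin.lt_def] at h6
    exact ⟨⟨h1, by omega⟩, h3, h4⟩

theorem up_pair {N : Set V} {R : V} (h : {M | M ∈ N ∧ r R M}.ncard = 2) :
    ∃ M₁ M₂, M₁ ≠ M₂ ∧ up r N R = {M₁, M₂} := by
  obtain ⟨M₁, M₂, hne, he⟩ := Set.ncard_eq_two.1 h
  refine ⟨M₁, M₂, hne, ?_⟩
  ext M
  rw [mem_up]
  have : M ∈ {M | M ∈ N ∧ r R M} ↔ M ∈ ({M₁, M₂} : Set V) := by rw [he]
  simpa using this

omit [Fintype V] in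
theorem const_of_sum_zero [CharP K 2] {S : Finset V} (h : ∃ M₁ M₂, M₁ ≠ M₂ ∧ S = {M₁, M₂})
    (a : V → Finset V → K) (h0 : ∑ M ∈ S, a M = 0) : ∃ e, ∀ M ∈ S, a M = e := by
  obtain ⟨M₁, M₂, hne, rfl⟩ := h
  refine ⟨a M₁, fun M hM => ?_⟩
  rw [Finset.sum_pair hne] at h0
  rcases Finset.mem_insert.1 hM with rfl | hM
  · rfl
  · rw [Finset.mem_singleton.1 hM]
    funext T
    have := congrFun h0 T
    rw [Pi.add_apply, Pi.zero_apply] at this
    exact (CharTwo.add_eq_zero.1 this).symm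

omit [Fintype V] in
theorem sum_const_zero [CharP K 2] {S : Finset V} (h : ∃ M₁ M₂, M₁ ≠ M₂ ∧ S = {M₁, M₂})
    (f : V → K) (e : K) (h0 : ∀ M ∈ S, f M = e) : ∑ M ∈ S, f M = 0 := by
  obtain ⟨M₁, M₂, hne, rfl⟩ := h
  rw [Finset.sum_pair hne, h0 M₁ (by simp), h0 M₂ (by simp)]
  exact CharTwo.add_self_eq_zero _

end intervals

/-! ### sets of ranks -/

/-- the ranks `0, 2, …, 2k-2, 2k, 2k+1` -/
def C2 (n k : ℕ) : Finset (Fin n) := DblF n k ∪ RgF n (2 * k) (2 * k + 2)

/-- the ranks `0, 2, …, 2k-2, 2k, 2k+1, 2k+2` -/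
def C3 (n k : ℕ) : Finset (Fin n) := DblF n k ∪ RgF n (2 * k) (2 * k + 3)

theorem mem_C2 {k : ℕ} {c : Fin n} :
    c ∈ C2 n k ↔ (Even c.val ∧ c.val < 2 * k) ∨ (2 * k ≤ c.val ∧ c.val < 2 * k + 2) := by
  unfold C2
  rw [Finset.mem_union, mem_DblF, mem_RgF]

theorem mem_C3 {k : ℕ} {c : Fin n} :
    c ∈ C3 n k ↔ (Even c.val ∧ c.val < 2 * k) ∨ (2 * k ≤ c.val ∧ c.val < 2 * k + 3) := by
  unfold C3
  rw [Finset.mem_union, mem_DblF, mem_RgF]

theorem C2_erase {k : ℕ} {s : Fin n} (hs : (s : ℕ) = 2 * k + 1) :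
    (C2 n k).erase s = DblF n (k + 1) := by
  ext c
  rw [Finset.mem_erase, mem_C2, mem_DblF, Ne, Fin.ext_iff, hs, Nat.even_iff]
  omega

theorem C3_erase {k : ℕ} {s : Fin n} (hs : (s : ℕ) = 2 * k + 1) :
    (C3 n k).erase s = DblF n (k + 2) := by
  ext c
  rw [Finset.mem_erase, mem_C3, mem_DblF, Ne, Fin.ext_iff, hs, Nat.even_iff]
  omega

theorem C3_erase_top {k : ℕ} {s : Fin n} (hs : (s : ℕ) = 2 * k + 2) :
    (C3 n k).erase s = C2 n k := by
  ext c
  rw [Finset.mem_erase, mem_C3, mem_C2, Ne, Fin.ext_iff, hs, Nat.even_iff]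
  omega

theorem Dbl_erase {k : ℕ} {s : Fin n} (hs : (s : ℕ) = 2 * k) :
    (DblF n (k + 1)).erase s = DblF n k := by
  ext c
  rw [Finset.mem_erase, mem_DblF, mem_DblF, Ne, Fin.ext_iff, hs, Nat.even_iff]
  omega

theorem bs_one (x : Finset V → K) (T : Finset V) : bs 1 x T = ∑ v ∈ Tᶜ, x (insert v T) := by
  unfold bs
  exact Finset.sum_congr rfl fun v _ => by rw [Pi.one_apply, one_mul]

theorem prim_use {r : V → V → Prop} {rk : V → Fin n} {τ : V → K} {N : Set V} {k : ℕ} {s : Fin n}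
    {S : Finset (Fin n)} (hs : (s : ℕ) = 2 * k + 1) (hP : PRIM r rk τ N (DblF n k) S s)
    {z : Finset V → K} (hz : z ∈ BZ r rk N ((DblF n k ∪ S).erase s) (Of τ (DblF n k))) :
    ∃ b ∈ BZ r rk N (DblF n k ∪ S) (Oe τ (DblF n k) s),
      dl r rk N ((DblF n k ∪ S).erase s) b = z := by
  have hsD : s ∉ DblF n k := by
    rw [mem_DblF, hs, Nat.even_iff]; omega
  have e : DblF n k ∪ S.erase s = (DblF n k ∪ S).erase s := by
    rw [Finset.erase_union_distrib, Finset.erase_eq_of_notMem hsD]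
  have hz2 : TZ r rk τ N (DblF n k) (S.erase s) z := by
    unfold TZ
    rw [e]
    refine ⟨hz.1, fun c hc T' hT' => ⟨?_, fun hcD => ?_⟩⟩
    · rw [← bs_one]
      exact hz.2 c hc 1 (Or.inl rfl) T' hT'
    · exact hz.2 c hc τ (Or.inr ⟨rfl, hcD⟩) T' hT'
  obtain ⟨b, hb1, hb2, hb3⟩ := hP z hz2
  refine ⟨b, ⟨hb1, fun c hc ω hω T hT => ?_⟩, ?_⟩
  · rcases hω.2 with h | h
    · rw [h, bs_one]
      exact (hb3 c hc hω.1 T hT).1
    · rw [h.1]
      exact (hb3 c hc hω.1 T hT).2 h.2
  · funext T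
    by_cases hT : ty r rk N ((DblF n k ∪ S).erase s) T
    · rw [dl_pos hT, bs_one]
      exact hb2 T hT
    · rw [dl_neg hT, hz.1 T hT]

omit [Fintype V] [DecidableEq V] in
theorem sel (P Q : Submodule K (Finset V → K)) (f : (Finset V → K) →ₗ[K] (Finset V → K))
    (h : ∀ x ∈ P, ∃ b ∈ Q, f b = x) :
    ∃ σ : (Finset V → K) →ₗ[K] (Finset V → K), ∀ x ∈ P, σ x ∈ Q ∧ f (σ x) = x := by
  let Q' : Submodule K (Finset V → K) := Q ⊓ P.comap f
  let g : Q' →ₗ[K] P := LinearMap.codRestrict P (f.comp Q'.subtype) (fun b => b.2.2)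
  have hg : Function.Surjective g := by
    rintro ⟨x, hx⟩
    obtain ⟨b, hb, e⟩ := h x hx
    refine ⟨⟨b, hb, ?_⟩, Subtype.ext e⟩
    show f b ∈ P
    rw [e]; exact hx
  obtain ⟨u, hu⟩ := g.exists_rightInverse_of_surjective (LinearMap.range_eq_top.2 hg)
  obtain ⟨σ, hσ⟩ := (Q'.subtype.comp u).exists_extend
  refine ⟨σ, fun x hx => ?_⟩
  have e : σ x = (u ⟨x, hx⟩ : Finset V → K) := LinearMap.congr_fun hσ ⟨x, hx⟩
  rw [e]
  refine ⟨(u ⟨x, hx⟩).2.1, ?_⟩
  exact congrArg Subtype.val (LinearMap.congr_fun hu ⟨x, hx⟩)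

/-! ### the induction -/

/-- the forms at the level `k` -/
structure Lev (r : V → V → Prop) (rk : V → Fin n) (τ : V → K) (k : ℕ)
    (Λ : V → (Finset V → K) → (Finset V → K) → K) : Prop where
  form : ∀ R, Form (Λ R)
  quad : ∀ R, (rk R : ℕ) = 2 * k →
    ∀ x ∈ BZ r rk {v | r v R} (DblF n k) (Of τ (DblF n k)), Λ R x x = q τ x
  iso : ∀ N, IsN r rk (2 * k + 1) N → ∀ b ∈ BZ r rk N (DblF n (k + 1)) (Of τ (DblF n k)),
    ∀ b' ∈ BZ r rk N (DblF n (k + 1)) (Of τ (DblF n k)),
    ∑ R ∈ el rk N (2 * k), Λ R (res r R b) (res r R b') = 0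

section main

variable {r : V → V → Prop} {rk : V → Fin n} {τ : V → K}

theorem lev_zero [CharP K 2] (h1 : ∀ N : Set V, IsN r rk 1 N → N.ncard = 2)
    (hrk : ∀ x y, r x y → rk x < rk y) :
    Lev r rk τ 0 (fun _ x x' => x ∅ * x' ∅) := by
  have hD0 : DblF n 0 = ∅ := by
    ext c; rw [mem_DblF]; simp
  refine ⟨fun R => ⟨fun a b c => ?_, fun t a c => ?_, fun a b => ?_⟩, fun R hR x hx => ?_,
    fun N hN b hb b' hb' => ?_⟩
  · show (a + b) ∅ * c ∅ = a ∅ * c ∅ + b ∅ * c ∅
    rw [Pi.add_apply]; ring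
  · show (t • a) ∅ * c ∅ = t * (a ∅ * c ∅)
    rw [Pi.smul_apply, smul_eq_mul]; ring
  · show a ∅ * b ∅ = b ∅ * a ∅
    ring
  · show x ∅ * x ∅ = q τ x
    unfold q
    rw [Finset.sum_eq_single ∅]
    · rw [Finset.prod_empty]; ring
    · intro T _ hT
      rw [hx.1 T]
      · ring
      · intro h
        have := h.2.2
        rw [hD0, Finset.image_eq_empty] at this
        exact hT this
    · intro h; exact absurd (Finset.mem_univ _) h
  · obtain ⟨R₁, R₂, hne, he⟩ := Set.ncard_eq_two.1 (h1 N hN)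
    have hel : el rk N (2 * 0) = {R₁, R₂} := by
      ext v
      rw [mem_el, he]
      simp only [Set.mem_insert_iff, Set.mem_singleton_iff, Finset.mem_insert,
        Finset.mem_singleton]
      constructor
      · exact fun h => h.1
      · intro h
        refine ⟨h, ?_⟩
        have := isN_lt hrk hN v (by rw [he]; exact h)
        omega
    have key : ∀ b ∈ BZ r rk N (DblF n (0 + 1)) (Of τ (DblF n 0)),
        b (insert R₁ ∅) = b (insert R₂ ∅) := by
      intro b hb
      have hR1 : R₁ ∈ el rk N (2 * 0) := by rw [hel]; simp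
      have hr1 : (rk R₁ : ℕ) = 2 * 0 := (mem_el.1 hR1).2
      have hc : rk R₁ ∈ DblF n (0 + 1) := by
        rw [mem_DblF, hr1]; simp
      have hty : ty r rk N ((DblF n (0 + 1)).erase (rk R₁)) ∅ := by
        refine ⟨by simp, by simp, ?_⟩
        rw [Dbl_erase hr1, hD0, Finset.image_empty]
      have h2 := hb.2 (rk R₁) hc 1 (Or.inl rfl) ∅ hty
      rw [bs_one] at h2
      have h3 : ∑ v ∈ (∅ : Finset V)ᶜ, b (insert v ∅) = ∑ v ∈ ({R₁, R₂} : Finset V), b (insert v ∅) := by
        symm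
        apply Finset.sum_subset
        · intro v _; simp
        · intro v _ hv
          apply hb.1
          intro h
          apply hv
          rw [← hel, mem_el]
          have hvN : v ∈ N := h.2.1 (by simp)
          refine ⟨hvN, ?_⟩
          have := isN_lt hrk hN v hvN
          omega
      rw [h3, Finset.sum_pair hne] at h2
      exact CharTwo.add_eq_zero.1 h2
    rw [hel]
    apply sum_const_zero ⟨R₁, R₂, hne, rfl⟩ _ (b (insert R₁ ∅) * b' (insert R₁ ∅))
    intro M hM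
    show res r M b ∅ * res r M b' ∅ = _
    rw [res_pos (by simp), res_pos (by simp)]
    rcases Finset.mem_insert.1 hM with rfl | hM
    · rfl
    · rw [Finset.mem_singleton.1 hM, key b hb, key b' hb']

theorem fam_mem (htr : ∀ x y z, r x y → r y z → r x z) (hrk : ∀ x y, r x y → rk x < rk y)
    {k m : ℕ} {N : Set V} (hN : IsN r rk m N) {s : Fin n} (hs : (s : ℕ) = 2 * k + 1)
    {b : Finset V → K} (hb : b ∈ BZ r rk N (C2 n k) (Oe τ (DblF n k) s)) {M : V} (hM : M ∈ N)
    (hMs : (rk M : ℕ) = 2 * k + 1) :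
    res r M b ∈ BZ r rk {v | r v M} (DblF n (k + 1)) (Of τ (DblF n k)) := by
  have h := res_mem hrk (isN_down htr hN) hb hM (by rw [mem_C2]; omega) (by
    intro c hc
    rw [mem_C2] at hc
    rw [Fin.le_def]; omega)
  rw [C2_erase hMs] at h
  refine BZ_mono h ?_
  intro c hc ω hω
  refine ⟨?_, hω⟩
  rintro rfl
  rw [mem_DblF, hs, Nat.even_iff] at hc
  omega

theorem fam_mem2 (htr : ∀ x y z, r x y → r y z → r x z) (hrk : ∀ x y, r x y → rk x < rk y)
    {k m : ℕ} {N : Set V} (hN : IsN r rk m N) {Ω : Fin n → (V → K) → Prop}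
    {b : Finset V → K} (hb : b ∈ BZ r rk N (DblF n (k + 1)) Ω) {R : V} (hR : R ∈ N)
    (hRs : (rk R : ℕ) = 2 * k) :
    res r R b ∈ BZ r rk {v | r v R} (DblF n k) Ω := by
  have h := res_mem hrk (isN_down htr hN) hb hR
    (by rw [mem_DblF, hRs, Nat.even_iff]; omega) (by
    intro c hc
    rw [mem_DblF] at hc
    rw [Fin.le_def]
    have := hc.1
    rw [Nat.even_iff] at this
    omega)
  rwa [Dbl_erase hRs] at h

theorem isN_below {m : ℕ} {M : V} (h : (rk M : ℕ) = m) : IsN r rk m {v | r v M} :=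
  Or.inr ⟨M, rfl, h.symm⟩

theorem res_dl2 (htr : ∀ x y z, r x y → r y z → r x z) (hrk : ∀ x y, r x y → rk x < rk y)
    {k : ℕ} {N : Set V} (hN : IsN r rk (2 * k + 2) N) {s : Fin n} (hs : (s : ℕ) = 2 * k + 1)
    {c : Finset V → K} (hc : ∀ T, ¬ ty r rk N (C2 n k) T → c T = 0) {R : V}
    (hR : R ∈ el rk N (2 * k)) :
    res r R (dl r rk N (DblF n (k + 1)) c) = ∑ M ∈ up r N R, res r R (res r M c) := by
  rw [mem_el] at hR
  rw [← C2_erase hs]
  apply res_dl htr hrk (isN_down htr hN) hc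
  · rw [mem_C2]; omega
  · intro M hM hRM
    have h1 := isN_lt hrk hN M hM
    have h2 := hrk _ _ hRM
    rw [Fin.lt_def] at h2
    apply Fin.ext
    omega
  · rw [Fin.lt_def]; omega

theorem pr_eq [CharP K 2] (htr : ∀ x y z, r x y → r y z → r x z)
    (hrk : ∀ x y, r x y → rk x < rk y) {k : ℕ} {N : Set V} (hN : IsN r rk (2 * k + 2) N)
    (thin : ∀ R ∈ N, (rk R : ℕ) = 2 * k → {M | M ∈ N ∧ r R M}.ncard = 2)
    {Λ : V → (Finset V → K) → (Finset V → K) → K} (hΛ : ∀ R, Form (Λ R)) {s : Fin n}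
    (hs : (s : ℕ) = 2 * k + 1) {d : Finset V → K} (hd : ∀ T, ¬ ty r rk N (C2 n k) T → d T = 0)
    (hd0 : dl r rk N (DblF n (k + 1)) d = 0) :
    ∃ e : V → (Finset V → K), ∀ (ω : V → K) (c : Finset V → K),
      (∀ T, ¬ ty r rk N (C2 n k) T → c T = 0) →
      pr r rk k Λ N ω d c =
        ∑ R ∈ el rk N (2 * k), ω R * Λ R (e R) (res r R (dl r rk N (DblF n (k + 1)) c)) := by
  have hE : ∀ R ∈ el rk N (2 * k), ∃ e, ∀ M ∈ up r N R, res r R (res r M d) = e := by
    intro R hR
    refine const_of_sum_zero (up_pair (thin R (mem_el.1 hR).1 (mem_el.1 hR).2)) _ ?_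
    rw [← res_dl2 htr hrk hN hs hd hR, hd0, map_zero]
  choose! e he using hE
  refine ⟨e, fun ω c hc => ?_⟩
  unfold pr
  rw [swap htr hrk hN (fun M R => ω R * Λ R (res r R (res r M d)) (res r R (res r M c)))]
  refine Finset.sum_congr rfl fun R hR => ?_
  rw [res_dl2 htr hrk hN hs hc hR, (hΛ R).sum_right, Finset.mul_sum]
  exact Finset.sum_congr rfl fun M hM => by rw [he R hR M hM]

theorem indep0 [CharP K 2] (htr : ∀ x y z, r x y → r y z → r x z)
    (hrk : ∀ x y, r x y → rk x < rk y) {k : ℕ} {N : Set V} (hN : IsN r rk (2 * k + 2) N)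
    (thin : ∀ R ∈ N, (rk R : ℕ) = 2 * k → {M | M ∈ N ∧ r R M}.ncard = 2)
    {Λ : V → (Finset V → K) → (Finset V → K) → K} (hΛ : Lev r rk τ k Λ) {s : Fin n}
    (hs : (s : ℕ) = 2 * k + 1)
    (hP : PRIM r rk τ N (DblF n k) (RgF n (2 * k) (2 * k + 2)) s) {d c : Finset V → K}
    (hd : d ∈ BZ r rk N (C2 n k) (Oe τ (DblF n k) s))
    (hd0 : dl r rk N (DblF n (k + 1)) d = 0)
    (hc : c ∈ BZ r rk N (C2 n k) (Oe τ (DblF n k) s))
    (hc0 : dl r rk N (DblF n (k + 1)) c ∈ BZ r rk N (DblF n (k + 1)) (Of τ (DblF n (k + 1)))) :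
    pr r rk k Λ N τ d c = 0 := by
  obtain ⟨e, he⟩ := pr_eq htr hrk hN thin hΛ.form hs hd.1 hd0
  have htw : tw rk τ (2 * k) (dl r rk N (DblF n (k + 1)) c) ∈
      BZ r rk N ((DblF n k ∪ RgF n (2 * k) (2 * k + 2)).erase s) (Of τ (DblF n k)) := by
    have : (DblF n k ∪ RgF n (2 * k) (2 * k + 2)).erase s = DblF n (k + 1) := C2_erase hs
    rw [this]
    exact tw_mem τ hc0
  obtain ⟨c', hc1, hc2⟩ := prim_use hs hP htw
  have hc3 : dl r rk N (DblF n (k + 1)) c' = tw rk τ (2 * k) (dl r rk N (DblF n (k + 1)) c) := by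
    rw [← C2_erase hs]
    rw [← C2_erase hs] at hc2
    exact hc2
  rw [he τ c hc.1]
  have e1 : ∑ R ∈ el rk N (2 * k), τ R * Λ R (e R) (res r R (dl r rk N (DblF n (k + 1)) c)) =
      ∑ R ∈ el rk N (2 * k), (1 : V → K) R *
        Λ R (e R) (res r R (dl r rk N (DblF n (k + 1)) c')) := by
    refine Finset.sum_congr rfl fun R hR => ?_
    rw [hc3, res_tw hrk τ (mem_el.1 hR).2, (hΛ.form R).smul_right, Pi.one_apply, one_mul]
  rw [e1, ← he 1 c' hc1.1]
  unfold pr
  refine Finset.sum_eq_zero fun M hM => ?_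
  rw [mem_el] at hM
  have e2 : ∑ R ∈ el rk {v | r v M} (2 * k), (1 : V → K) R *
      Λ R (res r R (res r M d)) (res r R (res r M c')) =
      ∑ R ∈ el rk {v | r v M} (2 * k), Λ R (res r R (res r M d)) (res r R (res r M c')) :=
    Finset.sum_congr rfl fun R _ => by rw [Pi.one_apply, one_mul]
  rw [e2]
  exact hΛ.iso _ (isN_below hM.2) _ (fam_mem htr hrk hN hs hd hM.1 hM.2) _
    (fam_mem htr hrk hN hs hc1 hM.1 hM.2)

theorem indep [CharP K 2] (htr : ∀ x y z, r x y → r y z → r x z)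
    (hrk : ∀ x y, r x y → rk x < rk y) {k : ℕ} {N : Set V} (hN : IsN r rk (2 * k + 2) N)
    (thin : ∀ R ∈ N, (rk R : ℕ) = 2 * k → {M | M ∈ N ∧ r R M}.ncard = 2)
    {Λ : V → (Finset V → K) → (Finset V → K) → K} (hΛ : Lev r rk τ k Λ) {s : Fin n}
    (hs : (s : ℕ) = 2 * k + 1)
    (hP : PRIM r rk τ N (DblF n k) (RgF n (2 * k) (2 * k + 2)) s) {b c b' c' : Finset V → K}
    (hb : b ∈ BZ r rk N (C2 n k) (Oe τ (DblF n k) s))
    (hc : c ∈ BZ r rk N (C2 n k) (Oe τ (DblF n k) s))
    (hb' : b' ∈ BZ r rk N (C2 n k) (Oe τ (DblF n k) s))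
    (hc' : c' ∈ BZ r rk N (C2 n k) (Oe τ (DblF n k) s))
    (ebb : dl r rk N (DblF n (k + 1)) b = dl r rk N (DblF n (k + 1)) b')
    (ecc : dl r rk N (DblF n (k + 1)) c = dl r rk N (DblF n (k + 1)) c')
    (hb0 : dl r rk N (DblF n (k + 1)) b ∈ BZ r rk N (DblF n (k + 1)) (Of τ (DblF n (k + 1))))
    (hc0 : dl r rk N (DblF n (k + 1)) c ∈ BZ r rk N (DblF n (k + 1)) (Of τ (DblF n (k + 1)))) :
    pr r rk k Λ N τ b c = pr r rk k Λ N τ b' c' := by
  have hF := pr_form r rk k hΛ.form N τ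
  have h1 : pr r rk k Λ N τ (b - b') c = 0 :=
    indep0 htr hrk hN thin hΛ hs hP (Submodule.sub_mem _ hb hb')
      (by rw [map_sub, ebb, sub_self]) hc hc0
  have h2 : pr r rk k Λ N τ (c - c') b' = 0 :=
    indep0 htr hrk hN thin hΛ hs hP (Submodule.sub_mem _ hc hc')
      (by rw [map_sub, ecc, sub_self]) hb' (by rw [← ebb]; exact hb0)
  rw [hF.sub_left, sub_eq_zero] at h1 h2
  rw [h1, hF.symm b' c, h2, hF.symm c' b']

theorem step [CharP K 2] (htr : ∀ x y z, r x y → r y z → r x z)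
    (hrk : ∀ x y, r x y → rk x < rk y)
    (thin : ∀ (N : Set V) (m : ℕ), IsN r rk (m + 2) N → ∀ R ∈ N, (rk R : ℕ) = m →
      {M | M ∈ N ∧ r R M}.ncard = 2) {k : ℕ}
    (hP2 : ∀ N : Set V, IsN r rk (2 * k + 2) N → ∀ s : Fin n, (s : ℕ) = 2 * k + 1 →
      PRIM r rk τ N (DblF n k) (RgF n (2 * k) (2 * k + 2)) s)
    (hP3 : ∀ N : Set V, IsN r rk (2 * k + 3) N → ∀ s : Fin n, (s : ℕ) = 2 * k + 1 →
      PRIM r rk τ N (DblF n k) (RgF n (2 * k) (2 * k + 3)) s)
    {Λ : V → (Finset V → K) → (Finset V → K) → K} (hΛ : Lev r rk τ k Λ) :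
    ∃ Λ', Lev r rk τ (k + 1) Λ' := by
  rcases lt_or_ge (2 * k + 1) n with hn | hn
  swap
  · refine ⟨fun _ _ _ => 0, ⟨fun R => ⟨fun _ _ _ => (add_zero 0).symm,
      fun _ _ _ => (mul_zero _).symm, fun _ _ => rfl⟩, fun R hR => ?_, fun N hN => ?_⟩⟩
    · have := (rk R).2; omega
    · have := isN_le hN; omega
  obtain ⟨s, hs⟩ : ∃ s : Fin n, (s : ℕ) = 2 * k + 1 := ⟨⟨2 * k + 1, hn⟩, rfl⟩
  obtain ⟨s₀, hs₀⟩ : ∃ s : Fin n, (s : ℕ) = 2 * k := ⟨⟨2 * k, by omega⟩, rfl⟩
  have hσ : ∀ y : V, ∃ σ : (Finset V → K) →ₗ[K] (Finset V → K), (rk y : ℕ) = 2 * k + 2 →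
      ∀ x ∈ BZ r rk {v | r v y} (DblF n (k + 1)) (Of τ (DblF n (k + 1))),
      σ x ∈ BZ r rk {v | r v y} (C2 n k) (Oe τ (DblF n k) s) ∧
      dl r rk {v | r v y} (DblF n (k + 1)) (σ x) = x := by
    intro y
    by_cases hy : (rk y : ℕ) = 2 * k + 2
    · obtain ⟨σ, h⟩ := sel (BZ r rk {v | r v y} (DblF n (k + 1)) (Of τ (DblF n (k + 1))))
        (BZ r rk {v | r v y} (C2 n k) (Oe τ (DblF n k) s))
        (dl r rk {v | r v y} (DblF n (k + 1))) (by
          intro x hx
          have he : (DblF n k ∪ RgF n (2 * k) (2 * k + 2)).erase s = DblF n (k + 1) := C2_erase hs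
          have hx2 : x ∈ BZ r rk {v | r v y}
              ((DblF n k ∪ RgF n (2 * k) (2 * k + 2)).erase s) (Of τ (DblF n k)) := by
            rw [he]
            refine BZ_mono hx fun c hc ω hω => ?_
            rcases hω with h | h
            · exact Or.inl h
            · exact Or.inr ⟨h.1, hc⟩
          obtain ⟨b, hb, e⟩ := prim_use hs (hP2 _ (isN_below hy) s hs) hx2
          rw [he] at e
          exact ⟨b, hb, e⟩)
      exact ⟨σ, fun _ => h⟩
    · exact ⟨0, fun h => absurd h hy⟩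
  choose σ hσ using hσ
  refine ⟨fun y x x' => pr r rk k Λ {v | r v y} τ (σ y x) (σ y x'),
    ⟨fun R => (pr_form r rk k hΛ.form _ τ).comp (σ R), ?_, ?_⟩⟩
  · intro R hR x hx
    have hR' : (rk R : ℕ) = 2 * k + 2 := by omega
    obtain ⟨hb, hdl⟩ := hσ R hR' x hx
    show pr r rk k Λ {v | r v R} τ (σ R x) (σ R x) = q τ x
    have hN : IsN r rk (2 * k + 2) {v | r v R} := isN_below hR'
    unfold pr
    rw [swap htr hrk hN (fun M R₀ => τ R₀ * Λ R₀ (res r R₀ (res r M (σ R x)))
      (res r R₀ (res r M (σ R x))))]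
    rw [q_res hrk τ hx.1 (s := s₀) (by rw [mem_DblF, hs₀, Nat.even_iff]; omega) (by
      intro c hc
      rw [mem_DblF, Nat.even_iff] at hc
      rw [Fin.le_def]; omega), hs₀]
    refine Finset.sum_congr rfl fun R₀ hR₀ => ?_
    rw [← Finset.mul_sum]
    congr 1
    have e3 : q τ (res r R₀ x) =
        ∑ M ∈ up r {v | r v R} R₀, q τ (res r R₀ (res r M (σ R x))) := by
      rw [← q_sum, ← res_dl2 htr hrk hN hs hb.1 hR₀, hdl]
    rw [e3]
    refine Finset.sum_congr rfl fun M hM => ?_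
    rw [mem_up] at hM
    have hR₀' := mem_el.1 hR₀
    have h1 := isN_lt hrk hN M hM.1
    have h2 := hrk _ _ hM.2
    rw [Fin.lt_def] at h2
    have hMs : (rk M : ℕ) = 2 * k + 1 := by omega
    apply hΛ.quad R₀ hR₀'.2
    exact fam_mem2 htr hrk (isN_below hMs) (fam_mem htr hrk hN hs hb hM.1 hMs) hM.2 hR₀'.2
  · intro N hN b hb b' hb'
    have hN3 : IsN r rk (2 * k + 1 + 2) N := by
      have : 2 * (k + 1) + 1 = 2 * k + 1 + 2 := by ring
      rwa [this] at hN
    have hn3 := isN_le hN3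
    obtain ⟨s₂, hs₂⟩ : ∃ s : Fin n, (s : ℕ) = 2 * k + 2 := ⟨⟨2 * k + 2, by omega⟩, rfl⟩
    have hbz : ∀ b ∈ BZ r rk N (DblF n (k + 1 + 1)) (Of τ (DblF n (k + 1))),
        ∃ p ∈ BZ r rk N (C3 n k) (Oe τ (DblF n k) s), dl r rk N ((C3 n k).erase s) p = b := by
      intro b hb
      have hb2 : b ∈ BZ r rk N ((DblF n k ∪ RgF n (2 * k) (2 * k + 3)).erase s)
          (Of τ (DblF n k)) := by
        have he : (DblF n k ∪ RgF n (2 * k) (2 * k + 3)).erase s = DblF n (k + 2) := C3_erase hs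
        rw [he]
        refine BZ_mono hb fun c hc ω hω => ?_
        rcases hω with h | h
        · exact Or.inl h
        · refine Or.inr ⟨h.1, ?_⟩
          have := h.2
          rw [mem_DblF] at this ⊢
          exact ⟨this.1, by omega⟩
      exact prim_use hs (hP3 N hN3 s hs) hb2
    obtain ⟨p, hp, ep⟩ := hbz b hb
    obtain ⟨p', hp', ep'⟩ := hbz b' hb'
    have hval : ∀ R ∈ el rk N (2 * (k + 1)),
        pr r rk k Λ {v | r v R} τ (σ R (res r R b)) (σ R (res r R b')) =
        ∑ M ∈ el rk {v | r v R} (2 * k + 1), ∑ R₀ ∈ el rk {v | r v M} (2 * k),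
          τ R₀ * Λ R₀ (res r R₀ (res r M (res r R p))) (res r R₀ (res r M (res r R p'))) := by
      intro R hR
      rw [mem_el] at hR
      have hR' : (rk R : ℕ) = 2 * k + 2 := by omega
      have hNR : IsN r rk (2 * k + 2) {v | r v R} := isN_below hR'
      have m1 : ∀ b ∈ BZ r rk N (DblF n (k + 1 + 1)) (Of τ (DblF n (k + 1))),
          res r R b ∈ BZ r rk {v | r v R} (DblF n (k + 1)) (Of τ (DblF n (k + 1))) :=
        fun b hb => fam_mem2 htr hrk hN hb hR.1 hR.2
      have hRC : rk R ∈ C3 n k := by rw [mem_C3]; omega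
      have htop : ∀ c ∈ C3 n k, c ≤ rk R := by
        intro c hc
        rw [mem_C3] at hc
        rw [Fin.le_def]; omega
      have m2 : ∀ p ∈ BZ r rk N (C3 n k) (Oe τ (DblF n k) s),
          res r R p ∈ BZ r rk {v | r v R} (C2 n k) (Oe τ (DblF n k) s) := by
        intro p hp
        have := res_mem hrk (isN_down htr hN) hp hR.1 hRC htop
        rwa [C3_erase_top hR'] at this
      have m3 : ∀ p ∈ BZ r rk N (C3 n k) (Oe τ (DblF n k) s),
          dl r rk {v | r v R} (DblF n (k + 1)) (res r R p) =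
            res r R (dl r rk N ((C3 n k).erase s) p) := by
        intro p hp
        have hne : s ≠ rk R := by
          rw [Ne, Fin.ext_iff]; omega
        have := dl_res hrk (isN_down htr hN) hp.1 hR.1 hRC htop hne
        rwa [C3_erase_top hR', C2_erase hs] at this
      obtain ⟨q1, q2⟩ := hσ R hR' _ (m1 b hb)
      obtain ⟨q1', q2'⟩ := hσ R hR' _ (m1 b' hb')
      exact indep htr hrk hNR (thin _ _ hNR) hΛ hs (hP2 _ hNR s hs) q1 q1' (m2 p hp) (m2 p' hp')
        (by rw [q2, m3 p hp, ep]) (by rw [q2', m3 p' hp', ep'])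
        (by rw [q2]; exact m1 b hb) (by rw [q2']; exact m1 b' hb')
    rw [Finset.sum_congr rfl hval]
    have e1 : 2 * (k + 1) = 2 * k + 1 + 1 := by ring
    rw [e1, swap htr hrk hN3 (fun R M => ∑ R₀ ∈ el rk {v | r v M} (2 * k),
      τ R₀ * Λ R₀ (res r R₀ (res r M (res r R p))) (res r R₀ (res r M (res r R p'))))]
    refine Finset.sum_eq_zero fun M hM => ?_
    rw [mem_el] at hM
    have hpair := up_pair (thin N (2 * k + 1) hN3 M hM.1 hM.2)
    have hc1 : ∀ p ∈ BZ r rk N (C3 n k) (Oe τ (DblF n k) s),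
        ∃ e, ∀ R ∈ up r N M, res r M (res r R p) = e := by
      intro p hp
      refine const_of_sum_zero hpair _ ?_
      have hs2C : s₂ ∈ C3 n k := by rw [mem_C3]; omega
      have hz : dl r rk N ((C3 n k).erase s₂) p = 0 := by
        funext T
        by_cases hT : ty r rk N ((C3 n k).erase s₂) T
        · rw [dl_pos hT]
          refine hp.2 s₂ hs2C 1 ⟨?_, Or.inl rfl⟩ T hT
          rw [Ne, Fin.ext_iff]; omega
        · rw [dl_neg hT]; rfl
      rw [← res_dl htr hrk (C := C3 n k) (s := s₂) (isN_down htr hN) hp.1 hs2C ?_ ?_, hz, map_zero]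
      · intro R hR hMR
        have h1 := isN_lt hrk hN3 R hR
        have h2 := hrk _ _ hMR
        rw [Fin.lt_def] at h2
        apply Fin.ext
        omega
      · rw [Fin.lt_def]; omega
    obtain ⟨e, he⟩ := hc1 p hp
    obtain ⟨e', he'⟩ := hc1 p' hp'
    refine sum_const_zero hpair _ (∑ R₀ ∈ el rk {v | r v M} (2 * k),
      τ R₀ * Λ R₀ (res r R₀ e) (res r R₀ e')) fun R hR => ?_
    simp only [he R hR, he' R hR]

theorem top_zero [CharP K 2] (htr : ∀ x y z, r x y → r y z → r x z)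
    (hrk : ∀ x y, r x y → rk x < rk y) (hI : Ind2 {v | Even (rk v : ℕ)} τ) {j : ℕ}
    {Λ : V → (Finset V → K) → (Finset V → K) → K} (hΛ : Lev r rk τ j Λ) {N : Set V}
    (hN : IsN r rk (2 * j + 1) N) {x : Finset V → K} (hx : TZ r rk τ N (DblF n (j + 1)) ∅ x) :
    x = 0 := by
  have hx2 : x ∈ BZ r rk N (DblF n (j + 1)) (Of τ (DblF n (j + 1))) := by
    unfold TZ at hx
    rw [Finset.union_empty] at hx
    refine ⟨hx.1, fun c hc ω hω T hT => ?_⟩
    rcases hω with h | h
    · rw [h, bs_one]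
      exact (hx.2 c hc T hT).1
    · rw [h.1]
      exact (hx.2 c hc T hT).2 h.2
  have hx3 : x ∈ BZ r rk N (DblF n (j + 1)) (Of τ (DblF n j)) := by
    refine BZ_mono hx2 fun c hc ω hω => ?_
    rcases hω with h | h
    · exact Or.inl h
    · exact Or.inr ⟨h.1, hc⟩
  have h1 := hΛ.iso N hN x hx3 _ (tw_mem τ hx2)
  have hn := isN_le hN
  obtain ⟨s₀, hs₀⟩ : ∃ s : Fin n, (s : ℕ) = 2 * j := ⟨⟨2 * j, by omega⟩, rfl⟩
  have h2 : q τ x = 0 := by
    rw [q_res hrk τ hx2.1 (s := s₀) (by rw [mem_DblF, hs₀, Nat.even_iff]; omega) (by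
      intro c hc
      rw [mem_DblF, Nat.even_iff] at hc
      rw [Fin.le_def]; omega), hs₀, ← h1]
    refine Finset.sum_congr rfl fun R hR => ?_
    rw [mem_el] at hR
    rw [res_tw hrk τ hR.2, (hΛ.form R).smul_right,
      hΛ.quad R hR.2 _ (fam_mem2 htr hrk hN hx3 hR.1 hR.2)]
  refine hI x (fun T hT => hx2.1 T fun h => hT ?_) h2
  intro v hv
  have h3 : rk v ∈ DblF n (j + 1) := by
    rw [← h.2.2]
    exact Finset.mem_image_of_mem _ hv
  exact (mem_DblF.1 h3).1

end main

/-- no top cycles in odd length -/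
theorem key : M_KEY := by
  intro n V K _ _ _ _ r rk τ j htr hrk thin h1 hI hP2 hP3 N hN x hx
  have hlev : ∀ k, k ≤ j → ∃ Λ : V → (Finset V → K) → (Finset V → K) → K, Lev r rk τ k Λ := by
    intro k
    induction k with
    | zero => intro _; exact ⟨_, lev_zero h1 hrk⟩
    | succ k ih =>
      intro hk
      obtain ⟨Λ, hΛ⟩ := ih (by omega)
      exact step htr hrk thin (hP2 k (by omega)) (hP3 k (by omega)) hΛ
  obtain ⟨Λ, hΛ⟩ := hlev j le_rfl
  exact top_zero htr hrk hI hΛ hN hx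

end Pool.Agent.W333.SM
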